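import Mathlib

set_option autoImplicit false

namespace Pool.Agent.Results.MP_8bdd73_co.Full

open Finset SimpleGraph

variable {V : Type} [Fintype V] (G : SimpleGraph V)

/-- Eccentricity of `v` inside its component (`G.dist v u = 0` when `u` is in another component). -/
noncomputable def ecc (v : V) : ℕ := univ.sup (fun u => G.dist v u)

/-- A broadcast: value `1` on an isolated vertex, and at most the eccentricity elsewhere. -/
def IsBroadcast (f : V → ℕ) : Prop :=
  ∀ v, ((∀ u, ¬ G.Adj v u) → f v = 1) ∧ ((∃ u, G.Adj v u) → f v ≤ ecc G v)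

/-- Boundary independence: a vertex hearing two broadcasting vertices is on both boundaries. -/
def BnIndep (f : V → ℕ) : Prop :=
  ∀ u v, u ≠ v → 0 < f u → 0 < f v → ∀ w, G.edist u w ≤ f u → G.edist v w ≤ f v →
    G.edist u w = f u ∧ G.edist v w = f v

/-- The boundary independence number. -/
noncomputable def alphaBn : ℕ :=
  sSup {s : ℕ | ∃ f : V → ℕ, IsBroadcast G f ∧ BnIndep G f ∧ s = ∑ v, f v}

omit [Fintype V] in
lemma step (v u : V) (e : ℕ) (h : G.edist v u = ((e + 1 : ℕ) : ℕ∞)) :
    ∃ w, G.edist v w = (e : ℕ∞) := by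
  rw [edist_comm] at h
  obtain ⟨p, hp⟩ := exists_walk_of_edist_eq_coe h
  cases p with
  | nil => simp at hp
  | cons hadj q =>
    rename_i w
    refine ⟨w, ?_⟩
    rw [edist_comm]
    have hq : q.length = e := by simpa using hp
    have h1 : G.edist w v ≤ (e : ℕ∞) := hq ▸ edist_le q
    have h2 : G.edist u v ≤ G.edist u w + G.edist w v := G.edist_triangle
    rw [h, edist_eq_one_iff_adj.2 hadj] at h2
    obtain ⟨m, hm⟩ := ENat.ne_top_iff_exists.1 (ne_top_of_le_ne_top (ENat.coe_ne_top e) h1)
    rw [← hm] at h1 h2 ⊢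
    have h1' : m ≤ e := by exact_mod_cast h1
    have h2' : e + 1 ≤ 1 + m := by exact_mod_cast h2
    exact_mod_cast (show m = e by omega)

omit [Fintype V] in
lemma levels (v : V) : ∀ (e : ℕ) (u : V), G.edist v u = (e : ℕ∞) → ∀ j ≤ e,
    ∃ w, G.edist v w = (j : ℕ∞)
  | 0, u, h, j, hj => ⟨u, by rw [h, Nat.le_zero.1 hj]⟩
  | e + 1, u, h, j, hj => by
    rcases Nat.lt_or_ge j (e + 1) with h1 | h1
    · obtain ⟨w, hw⟩ := step G v u e h
      exact levels v e w hw j (by omega)
    · exact ⟨u, by rw [h, le_antisymm hj h1]⟩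

lemma lev (f : V → ℕ) (hf : IsBroadcast G f) (v : V) (j : ℕ) (hj : j ≤ f v)
    (h1 : ¬ (j = 1 ∧ f v = 1)) : ∃ w, G.edist v w = (j : ℕ∞) := by
  rcases Nat.eq_zero_or_pos j with rfl | hp
  · exact ⟨v, by simp⟩
  by_cases ha : ∃ u, G.Adj v u
  · have h2 := (hf v).2 ha
    obtain ⟨u, -, hu⟩ := exists_mem_eq_sup univ ⟨v, mem_univ v⟩ (fun u => G.dist v u)
    have h3 : j ≤ G.dist v u := by unfold ecc at h2; omega
    have hr : G.Reachable v u := Reachable.of_dist_ne_zero (by omega)
    exact levels G v _ u (Reachable.coe_dist_eq_edist hr).symm j h3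
  · have := (hf v).1 (fun u hu => ha ⟨u, hu⟩)
    exact absurd ⟨by omega, this⟩ h1

lemma main [DecidableRel G.Adj] (f : V → ℕ) (hf : IsBroadcast G f) (hb : BnIndep G f) (v : V)
    (hv : 0 < f v) : ∑ u, f u + G.degree v ≤ Fintype.card V := by
  classical
  haveI : Nonempty V := ⟨v⟩
  let I : V → Finset V := fun u => univ.filter (fun w => G.edist u w < f u)
  let N : Finset V := univ.filter (fun w => G.edist v w ≤ f v)
  have hI : ∀ u, f u ≤ (I u).card := by
    intro u
    have : ∀ j, j < f u → ∃ w, G.edist u w = (j : ℕ∞) :=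
      fun j hj => lev G f hf u j hj.le (by omega)
    choose! g hg using this
    rw [← card_range (f u)]
    refine card_le_card_of_injOn g (fun j hj => ?_) (fun i hi j hj hij => ?_)
    · have hj' : j < f u := by simpa using hj
      simp only [I, coe_filter, mem_univ, true_and, Set.mem_setOf_eq]
      rw [hg j hj']; exact_mod_cast hj'
    · have h1 := hg i (by simpa using hi)
      have h2 := hg j (by simpa using hj)
      rw [hij, h2] at h1
      exact_mod_cast h1.symm
  have hN : f v + G.degree v ≤ N.card := by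
    have : ∀ j, j ≤ f v ∧ j ≠ 1 → ∃ w, G.edist v w = (j : ℕ∞) :=
      fun j hj => lev G f hf v j hj.1 (by omega)
    choose! g hg using this
    let R := (range (f v + 1)).erase 1
    have hR : ∀ j ∈ R, j ≤ f v ∧ j ≠ 1 := by
      intro j hj; simp only [R, mem_erase, mem_range] at hj; omega
    have hc : (R.image g).card = f v := by
      rw [card_image_of_injOn, card_erase_of_mem (by simp; omega)]
      · simp
      · intro i hi j hj hij
        have h1 := hg i (hR i hi)
        have h2 := hg j (hR j hj)
        rw [hij, h2] at h1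
        exact_mod_cast h1.symm
    have hd : Disjoint (R.image g) (G.neighborFinset v) := by
      rw [Finset.disjoint_left]
      intro w hw hw2
      obtain ⟨j, hj, rfl⟩ := mem_image.1 hw
      have h1 := hg j (hR j hj)
      rw [edist_eq_one_iff_adj.2 (by simpa using hw2)] at h1
      exact (hR j hj).2 (by exact_mod_cast h1.symm)
    rw [← hc, ← card_neighborFinset_eq_degree, ← card_union_of_disjoint hd]
    refine card_le_card (fun w hw => ?_)
    simp only [N, mem_filter, mem_univ, true_and]
    rcases mem_union.1 hw with hw | hw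
    · obtain ⟨j, hj, rfl⟩ := mem_image.1 hw
      rw [hg j (hR j hj)]; exact_mod_cast (hR j hj).1
    · rw [edist_eq_one_iff_adj.2 (by simpa using hw)]; exact_mod_cast hv
  have hpos : ∀ u w, w ∈ I u → 0 < f u := by
    intro u w hw
    simp only [I, mem_filter, mem_univ, true_and] at hw
    by_contra h0
    rw [show f u = 0 by omega] at hw
    simp at hw
  have hdis : ((univ.erase v : Finset V) : Set V).PairwiseDisjoint I := by
    intro a _ b _ hab
    refine Finset.disjoint_left.2 (fun w hwa hwb => ?_)
    have ha := hpos a w hwa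
    have hb' := hpos b w hwb
    simp only [I, mem_filter, mem_univ, true_and] at hwa hwb
    exact hwa.ne (hb a b hab ha hb' w hwa.le hwb.le).1
  have hd2 : Disjoint N ((univ.erase v).biUnion I) := by
    refine Finset.disjoint_left.2 (fun w hw hw2 => ?_)
    obtain ⟨u, hu, hwu⟩ := mem_biUnion.1 hw2
    have hp := hpos u w hwu
    simp only [I, N, mem_filter, mem_univ, true_and] at hw hwu
    exact hwu.ne (hb u v (ne_of_mem_erase hu) hp hv w hwu.le hw).1
  have h1 := card_le_univ (N ∪ (univ.erase v).biUnion I)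
  rw [card_union_of_disjoint hd2, card_biUnion hdis] at h1
  have h2 : ∑ u ∈ univ.erase v, f u ≤ ∑ u ∈ univ.erase v, (I u).card :=
    sum_le_sum (fun u _ => hI u)
  rw [← add_sum_erase univ f (mem_univ v)]
  omega

theorem result (V : Type) [Fintype V] [Nonempty V] (G : SimpleGraph V) [DecidableRel G.Adj] :
    alphaBn G + G.minDegree ≤ Fintype.card V := by
  have hm : G.minDegree ≤ Fintype.card V := by
    obtain ⟨v⟩ := ‹Nonempty V›
    exact (G.minDegree_le_degree v).trans (G.degree_lt_card_verts v).le
  have : alphaBn G ≤ Fintype.card V - G.minDegree := by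
    refine csSup_le' ?_
    rintro s ⟨f, hf, hb, rfl⟩
    by_cases h : ∃ v, 0 < f v
    · obtain ⟨v, hv⟩ := h
      have h1 := main G f hf hb v hv
      have h2 := G.minDegree_le_degree v
      omega
    · have : ∑ v, f v = 0 := sum_eq_zero (fun v _ => by by_contra h0; exact h ⟨v, by omega⟩)
      omega
  omega

end Pool.Agent.Results.MP_8bdd73_co.Full
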